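import Pool.Agent.H933.LL.Stm11
import Pool.Agent.H933.LL.Gen
import Pool.Agent.H356.LL.Split
import Pool.Agent.H122.LL.Prod
import Pool.Agent.H571.LL.Comm
import Pool.Agent.H665.LL.Sq

/-!
# P_sep: separation of a point of the spectrum, from P_cut (helper670)
-/

set_option autoImplicit false
set_option linter.unusedSectionVars false

open MeasureTheory Metric
open scoped Real Topology

namespace Pool.Agent.H670.LL

open Pool.Agent.H933.LL
open Pool.Agent.H356.LL (Dens Bop isOpen_ann)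

section

variable {X : Type} [NormedAddCommGroup X] [NormedSpace ℂ X] [CompleteSpace X]

/-- the equation of `Bop`, if the spectrum is a null set in the annulus -/
theorem dens_eq {T : X →L[ℂ] X} {l : ℂ} {r₁ r₂ : ℝ} {h : ℂ → ℂ} (H : Dens T l r₁ r₂ h)
    (hae : ∀ᵐ z ∂(volume.restrict (ann l r₁ r₂)), z ∉ spectrum ℂ T)
    {w : ℂ} {δ : ℝ} (hδ : 0 < δ) (hw : ∀ z ∈ ann l r₁ r₂, δ ≤ ‖z - w‖) :
    (w • (1 : X →L[ℂ] X) - T) * Bop T l r₁ r₂ h w =
      (∫ z in ann l r₁ r₂, h z * (z - w)⁻¹) • (1 : X →L[ℂ] X) -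
        ∫ z in ann l r₁ r₂, h z • resolvent T z := by
  have hi1 := H.int_inv hδ hw
  have hi0 := H.int_inv0 hδ hw
  unfold Bop
  have e0 : (∫ z in ann l r₁ r₂, h z * (z - w)⁻¹) • (1 : X →L[ℂ] X) =
      ∫ z in ann l r₁ r₂, (h z * (z - w)⁻¹) • (1 : X →L[ℂ] X) :=
    (integral_smul_const (fun z => h z * (z - w)⁻¹) (1 : X →L[ℂ] X)).symm
  have hi2 : IntegrableOn (fun z => (h z * (z - w)⁻¹) • (1 : X →L[ℂ] X)) (ann l r₁ r₂) :=
    Integrable.smul_const hi0 _
  rw [← integral_const_mul_of_integrable hi1, e0, ← integral_sub hi2 H.int']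
  refine integral_congr_ae ?_
  filter_upwards [hae, ae_restrict_mem (isOpen_ann l r₁ r₂).measurableSet] with z hz hz2
  have hne : z - w ≠ 0 := by
    intro h0
    have := hw z hz2
    rw [h0, norm_zero] at this
    linarith
  have hc : (z - w)⁻¹ * (w - z) = -1 := by
    rw [← neg_sub z w, mul_neg, inv_mul_cancel₀ hne]
  rw [mul_smul_comm, mul_smul_comm, Pool.Agent.H356.LL.sub_mul_resolvent hz, smul_add, smul_add,
    smul_smul, smul_smul, smul_smul]
  have e1 : (z - w)⁻¹ * h z * (w - z) = - h z := by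
    rw [mul_comm (z - w)⁻¹, mul_assoc, hc, mul_neg_one]
  rw [mul_comm (z - w)⁻¹ (h z)] at e1 ⊢
  rw [e1, neg_smul]
  abel

/-- `Bop` commutes with the commutant -/
theorem bop_comm {T : X →L[ℂ] X} {l : ℂ} {r₁ r₂ : ℝ} {h : ℂ → ℂ} (H : Dens T l r₁ r₂ h)
    {w : ℂ} {δ : ℝ} (hδ : 0 < δ) (hw : ∀ z ∈ ann l r₁ r₂, δ ≤ ‖z - w‖)
    (Q : X →L[ℂ] X) (hQ : Q * T = T * Q) :
    Q * Bop T l r₁ r₂ h w = Bop T l r₁ r₂ h w * Q := by
  have hi := H.int_inv hδ hw
  unfold Bop
  rw [← integral_const_mul_of_integrable hi, ← integral_mul_const_of_integrable hi]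
  refine integral_congr_ae (Filter.Eventually.of_forall fun z => ?_)
  show Q * ((z - w)⁻¹ • (h z • resolvent T z)) = ((z - w)⁻¹ • (h z • resolvent T z)) * Q
  rw [mul_smul_comm, smul_mul_assoc, mul_smul_comm, smul_mul_assoc,
    Pool.Agent.H356.LL.comm_resolvent hQ]

/-- the product of a resolvent at an inner point with the cut-off operator -/
theorem res_mul {T : X →L[ℂ] X} {l : ℂ} {r₁ r₂ : ℝ} {h : ℂ → ℂ} (H : Dens T l r₁ r₂ h)
    (hae : ∀ᵐ z ∂(volume.restrict (ann l r₁ r₂)), z ∉ spectrum ℂ T) (hr : r₁ < r₂)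
    {z : ℂ} (hz : ‖z - l‖ < r₁) (hzr : z ∈ resolventSet ℂ T) :
    resolvent T z * (∫ w in ann l r₁ r₂, h w • resolvent T w) =
      resolvent T z - Bop T l r₁ r₂ h z := by
  have he := dens_eq H hae (sub_pos.mpr hz) (fun w hw => Pool.Agent.H356.LL.dist_in hz hw)
  rw [H.rep_inv (sub_pos.mpr hz) (fun w hw => Pool.Agent.H356.LL.dist_in hz hw),
    Pool.Agent.H356.LL.circ_in hr hz, one_smul] at he
  have hu : IsUnit (algebraMap ℂ (X →L[ℂ] X) z - T) := hzr
  have h2 : resolvent T z * (z • (1 : X →L[ℂ] X) - T) = 1 := by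
    have := Ring.inverse_mul_cancel _ hu
    rw [Algebra.algebraMap_eq_smul_one] at this
    rw [resolvent, Algebra.algebraMap_eq_smul_one]
    exact this
  have h3 : Bop T l r₁ r₂ h z =
      resolvent T z * (1 - ∫ w in ann l r₁ r₂, h w • resolvent T w) := by
    rw [← he, ← mul_assoc, h2, one_mul]
  rw [h3, mul_sub, mul_one]
  abel

/-- the cut-off operator is the identity on the range of `Op` -/
theorem op_mul {T : X →L[ℂ] X} {l : ℂ} {r r₁ r₂ : ℝ} {h₁ h : ℂ → ℂ} (hA : Adm T l r h₁)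
    (H : Dens T l r₁ r₂ h) (hσ : volume (spectrum ℂ T ∩ ball l r) = 0)
    (hae : ∀ᵐ z ∂(volume.restrict (ann l r₁ r₂)), z ∉ spectrum ℂ T) (hr0 : r < r₁) (hr : r₁ < r₂) :
    Op T l r h₁ * (∫ w in ann l r₁ r₂, h w • resolvent T w) = Op T l r h₁ := by
  set μ₁ := (volume : Measure ℂ).restrict (ball l r) with hμ₁
  set μ₂ := (volume : Measure ℂ).restrict (ann l r₁ r₂) with hμ₂
  obtain ⟨δ, hδ⟩ : ∃ δ : ℝ, δ = r₁ - r := ⟨_, rfl⟩
  have hδ0 : 0 < δ := by rw [hδ]; linarith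
  have hsep : ∀ z ∈ ball l r, ∀ w ∈ ann l r₁ r₂, δ ≤ ‖w - z‖ := by
    intro z hz w hw
    rw [mem_ball_iff_norm] at hz
    have h1 := Pool.Agent.H356.LL.dist_in (hz.trans hr0) hw
    rw [hδ]
    linarith
  have hI₁ : Integrable (fun z => h₁ z • resolvent T z) μ₁ :=
    Pool.Agent.H122.LL.int_smul T l r h₁ hσ hA
  have hI₂ : Integrable (fun z => h z • resolvent T z) μ₂ := H.int'
  have hball₁ : ∀ᵐ z ∂μ₁, z ∈ ball l r := ae_restrict_mem measurableSet_ball
  have hann₂ : ∀ᵐ z ∂μ₂, z ∈ ann l r₁ r₂ := ae_restrict_mem (isOpen_ann l r₁ r₂).measurableSet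
  set A := ∫ w in ann l r₁ r₂, h w • resolvent T w with hAdef
  have hint : Integrable (Function.uncurry
      (fun z w => (h₁ z * (w - z)⁻¹) • (h w • resolvent T w))) (μ₁.prod μ₂) := by
    have hm1 : AEStronglyMeasurable (fun p : ℂ × ℂ => h₁ p.1) (μ₁.prod μ₂) := hA.meas.comp_fst
    have hm2 : AEStronglyMeasurable (fun p : ℂ × ℂ => h p.2 • resolvent T p.2) (μ₁.prod μ₂) :=
      hI₂.aestronglyMeasurable.comp_snd
    have hm3 : AEStronglyMeasurable (fun p : ℂ × ℂ => (p.2 - p.1)⁻¹) (μ₁.prod μ₂) :=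
      (measurable_snd.sub measurable_fst).inv.aestronglyMeasurable
    have hdom : Integrable (fun p : ℂ × ℂ => (δ⁻¹ * ‖h₁ p.1‖) * (‖h p.2‖ * ‖resolvent T p.2‖))
        (μ₁.prod μ₂) :=
      Integrable.mul_prod ((hA.hint : Integrable h₁ μ₁).norm.const_mul δ⁻¹) H.int
    refine Integrable.mono hdom ((hm1.mul hm3).smul hm2) ?_
    have hmem : ∀ᵐ p : ℂ × ℂ ∂(μ₁.prod μ₂), p ∈ ball l r ×ˢ ann l r₁ r₂ := by
      rw [hμ₁, hμ₂, Measure.prod_restrict]
      exact ae_restrict_mem (measurableSet_ball.prod (isOpen_ann l r₁ r₂).measurableSet)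
    filter_upwards [hmem] with p hp
    have h3 : ‖(p.2 - p.1)⁻¹‖ ≤ δ⁻¹ := by
      rw [norm_inv]
      exact inv_anti₀ hδ0 (hsep p.1 hp.1 p.2 hp.2)
    have h4 : (0 : ℝ) ≤ δ⁻¹ := by positivity
    show ‖(h₁ p.1 * (p.2 - p.1)⁻¹) • (h p.2 • resolvent T p.2)‖ ≤ _
    rw [norm_smul, norm_smul, norm_mul, norm_mul, norm_mul, norm_mul, norm_norm, norm_norm,
      norm_norm, Real.norm_of_nonneg h4, mul_comm ‖h₁ p.1‖]
    gcongr
  -- the outer integrand
  have e1 : Op T l r h₁ * A = ∫ z, (h₁ z • resolvent T z) * A ∂μ₁ := by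
    have := ((ContinuousLinearMap.mul ℂ (X →L[ℂ] X)).flip A).integral_comp_comm hI₁
    exact this.symm
  have e2 : ∀ᵐ z ∂μ₁, (h₁ z • resolvent T z) * A = h₁ z • resolvent T z -
      ∫ w, (h₁ z * (w - z)⁻¹) • (h w • resolvent T w) ∂μ₂ := by
    filter_upwards [hball₁, Pool.Agent.H122.LL.ae_res T l r hσ] with z hz hzr
    rw [mem_ball_iff_norm] at hz
    rw [smul_mul_assoc, res_mul H hae hr (hz.trans hr0) hzr, smul_sub]
    congr 1
    unfold Bop
    rw [← integral_smul]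
    apply integral_congr_ae
    filter_upwards with w
    rw [smul_smul]
  have e3 : Integrable (fun z => ∫ w, (h₁ z * (w - z)⁻¹) • (h w • resolvent T w) ∂μ₂) μ₁ :=
    hint.integral_prod_left
  have e4 : ∫ z, ∫ w, (h₁ z * (w - z)⁻¹) • (h w • resolvent T w) ∂μ₂ ∂μ₁ = 0 := by
    rw [integral_integral_swap hint]
    have e5 : ∀ᵐ w ∂μ₂, ∫ z, (h₁ z * (w - z)⁻¹) • (h w • resolvent T w) ∂μ₁ = 0 := by
      filter_upwards [hann₂] with w hw
      rw [integral_smul_const]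
      have e6 : ∫ z, h₁ z * (w - z)⁻¹ ∂μ₁ = 0 := by
        apply hA.orth (fun z => (w - z)⁻¹)
        · intro z hz
          apply DifferentiableAt.differentiableWithinAt
          refine ((differentiableAt_const w).sub differentiableAt_id).inv ?_
          intro h0
          have h1 := hsep z hz w hw
          have h2 : w - z = 0 := h0
          rw [h2, norm_zero] at h1
          linarith
        · refine ⟨δ⁻¹, fun z hz => ?_⟩
          rw [norm_inv]
          exact inv_anti₀ hδ0 (hsep z hz w hw)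
      rw [e6, zero_smul]
    rw [integral_congr_ae e5, integral_zero]
  rw [e1, integral_congr_ae e2, integral_sub hI₁ e3, e4, sub_zero]
  rfl

end

theorem p_sep (hcut : P_cut) : P_sep := by
  intro X _ _ _ T l q r r₂ hq hr2 hr hl hσ hI
  -- `X` is nontrivial
  have hX : Nontrivial X := by
    by_contra hcon
    rw [not_nontrivial_iff_subsingleton] at hcon
    have hs : Subsingleton (X →L[ℂ] X) := ⟨fun f g => by
      ext x
      exact Subsingleton.elim _ _⟩
    apply hl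
    have : algebraMap ℂ (X →L[ℂ] X) l - T = 1 := Subsingleton.elim _ _
    change IsUnit (algebraMap ℂ (X →L[ℂ] X) l - T)
    rw [this]
    exact isUnit_one
  set r₁ := r₂ / 2 with hr1
  set r₀ := r₂ / 4 with hr0
  have hr1pos : 0 < r₁ := by rw [hr1]; positivity
  have hr0pos : 0 < r₀ := by rw [hr0]; positivity
  have hr01 : r₀ < r₁ := by rw [hr0, hr1]; linarith
  have hr12 : r₁ < r₂ := by rw [hr1]; linarith
  -- the small disc
  have hsub0 : ball l r₀ ⊆ ball l r := ball_subset_ball (by linarith)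
  have hσ0 : volume (spectrum ℂ T ∩ ball l r₀) = 0 :=
    measure_mono_null (Set.inter_subset_inter_right _ hsub0) hσ
  obtain ⟨h₁, hA⟩ := exists_adm T l r₀ q hr0pos hq hl hσ0 (hI.mono_set hsub0)
  -- the annulus
  have hsubW : ann l r₁ r₂ ⊆ ball l r := by
    intro z hz
    rw [mem_ball_iff_norm]
    exact hz.2.trans hr
  have hae : ∀ᵐ z ∂(volume.restrict (ann l r₁ r₂)), z ∉ spectrum ℂ T := by
    rw [ae_restrict_iff' (isOpen_ann l r₁ r₂).measurableSet, ae_iff]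
    refine measure_mono_null ?_ hσ
    intro z hz
    simp only [Classical.not_imp, not_not, Set.mem_ofPred_eq] at hz
    exact ⟨hz.2, hsubW hz.1⟩
  set R := ‖l‖ + r₂ + ‖T‖ + 1 with hR
  have hT0 := norm_nonneg T
  have hl0 := norm_nonneg l
  have hR0 : 0 < R := by rw [hR]; linarith
  have hlow : ∀ᵐ z ∂(volume.restrict (ann l r₁ r₂)), R⁻¹ ≤ ‖resolvent T z‖ := by
    filter_upwards [hae, ae_restrict_mem (isOpen_ann l r₁ r₂).measurableSet] with z hz hz2
    have hz' : z ∈ resolventSet ℂ T := by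
      by_contra h
      exact hz h
    have hu : IsUnit (algebraMap ℂ (X →L[ℂ] X) z - T) := hz'
    have h1 : (algebraMap ℂ (X →L[ℂ] X) z - T) * resolvent T z = 1 :=
      Ring.mul_inverse_cancel _ hu
    have h2 : (1 : ℝ) ≤ ‖algebraMap ℂ (X →L[ℂ] X) z - T‖ * ‖resolvent T z‖ := by
      have h3 := norm_mul_le (algebraMap ℂ (X →L[ℂ] X) z - T) (resolvent T z)
      rw [h1, norm_one] at h3
      exact h3
    have h4 : ‖algebraMap ℂ (X →L[ℂ] X) z - T‖ ≤ R := by
      refine (norm_sub_le _ _).trans ?_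
      rw [norm_algebraMap']
      have h5 : ‖z‖ ≤ ‖z - l‖ + ‖l‖ := by
        have : z = (z - l) + l := by ring
        conv_lhs => rw [this]
        exact norm_add_le _ _
      have := hz2.2
      rw [hR]
      linarith
    rw [inv_le_iff_one_le_mul₀' hR0]
    exact h2.trans (mul_le_mul_of_nonneg_right h4 (norm_nonneg _))
  obtain ⟨h, k1, k2, k3, k4⟩ := hcut (fun z => ‖resolvent T z‖) l r₁ r₂ q R⁻¹ hr1pos hr12 hq
    (inv_pos.mpr hR0) (Pool.Agent.H356.LL.aesm_resolvent T _).norm.aemeasurable hlow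
    (hI.mono_set hsubW)
  have H : Dens T l r₁ r₂ h := ⟨k1, k2, k3, k4⟩
  have hBcomm : ∀ Q : X →L[ℂ] X, Q * T = T * Q → Q * Op T l r₀ h₁ = Op T l r₀ h₁ * Q :=
    fun Q hQ => Pool.Agent.H571.LL.p_comm X T l r₀ h₁ hσ0 hA Q hQ
  refine ⟨∫ z in ann l r₁ r₂, h z • resolvent T z, Op T l r₀ h₁, H.comm, hBcomm, ?_, ?_, ?_⟩
  · intro h0
    apply Pool.Agent.H665.LL.p_sq X T l r₀ h₁ hr0pos hl hσ0 hA
    rw [h0, mul_zero]
  · rw [← H.comm (Op T l r₀ h₁) (hBcomm T rfl).symm]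
    exact op_mul hA H hσ0 hae hr01 hr12
  · intro hA1 v hv
    by_contra hcon
    rw [mem_closedBall_iff_norm, not_le] at hcon
    have hb := fun z (hz : z ∈ ann l r₁ r₂) => Pool.Agent.H356.LL.dist_out hcon hz
    have he := dens_eq H hae (sub_pos.mpr hcon) hb
    rw [H.rep_inv (sub_pos.mpr hcon) hb, Pool.Agent.H356.LL.circ_out hr1pos hr12 hcon,
      zero_smul, zero_sub, hA1] at he
    have hc := bop_comm H (sub_pos.mpr hcon) hb T rfl
    apply hv
    change IsUnit (algebraMap ℂ (X →L[ℂ] X) v - T)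
    rw [Algebra.algebraMap_eq_smul_one]
    have he1 : (v • (1 : X →L[ℂ] X) - T) * (-Bop T l r₁ r₂ h v) = 1 := by
      rw [mul_neg, he, neg_neg]
    have he3 : Bop T l r₁ r₂ h v * (v • (1 : X →L[ℂ] X) - T) =
        (v • (1 : X →L[ℂ] X) - T) * Bop T l r₁ r₂ h v := by
      rw [mul_sub, sub_mul, hc, mul_smul_comm, smul_mul_assoc, mul_one, one_mul]
    have he2 : (-Bop T l r₁ r₂ h v) * (v • (1 : X →L[ℂ] X) - T) = 1 := by
      rw [neg_mul, he3, he, neg_neg]
    exact ⟨⟨_, _, he1, he2⟩, rfl⟩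

end Pool.Agent.H670.LL
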